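import Pool.Agent.Helper73.EH.FLUX
import Pool.Agent.Helper65.E3.Defs

set_option autoImplicit false

open MeasureTheory Metric Real Set

/-!
# EH stage 3, part FLUX3: the integrated flux identity, order three

Adapted from `Helper73/EH/FLUX.lean`.
-/

namespace Pool.Agent.Helper79.EH.FLUX3

open Pool.Agent.Helper65.ET (pt pt_re Per hasDerivAt_pt_x hasDerivAt_pt_y cont_comp ite_hasDerivAt)
open Pool.Agent.Helper65.EH
open Pool.Agent.Helper65.E3
open Pool.Agent.Helper73.EH.FLUX (zi zr_sq_add_zi_sq hasDerivAt_pw hasDerivAt_vv_y hasDerivAt_vv_x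
  hasDerivAt_zr_y hasDerivAt_zi_x cont_pw cont_vv cont_zr cont_zi)

lemma hasDerivAt_kap3 (v : ℝ) : HasDerivAt kap3 (kap3' v) v := by
  unfold kap3 kap3'
  refine ite_hasDerivAt (f := fun v => -(11 / 25) * (19 / 40 * v - v ^ 2 / 3))
    (g := fun v => -(11 / 25) * ((19 / 20) ^ 3 / 6) / v)
    (f' := fun v => -(11 / 25) * (19 / 40 - 2 / 3 * v))
    (g' := fun v => (11 / 25) * ((19 / 20) ^ 3 / 6) / v ^ 2) (19 / 20) ?_ ?_ (by norm_num)
    (by norm_num) v
  · intro v _
    have h1 : HasDerivAt (fun v : ℝ => 19 / 40 * v - v ^ 2 / 3) (19 / 40 - 2 / 3 * v) v := by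
      have h2 := ((hasDerivAt_id v).const_mul (19 / 40)).sub
        (((hasDerivAt_id v).fun_pow 2).div_const 3)
      refine h2.congr_deriv ?_
      simp; ring
    exact h1.const_mul (-(11 / 25) : ℝ)
  · intro v hv
    have hv0 : v ≠ 0 := by linarith
    have := (hasDerivAt_inv hv0).const_mul (-(11 / 25) * ((19 / 20) ^ 3 / 6) : ℝ)
    refine (this.congr_deriv ?_).congr_of_eventuallyEq (Filter.Eventually.of_forall fun w => ?_)
    · field_simp
    · simp only [div_eq_mul_inv]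

lemma hasDerivAt_KK3 (v : ℝ) : HasDerivAt KK3 (kap3 v) v := by
  unfold kap3 KK3
  refine ite_hasDerivAt (f := fun v => -(11 / 25) * (19 / 80 * v ^ 2 - v ^ 3 / 9))
    (g := fun v => -(11 / 25) * (5 / 36 * (19 / 20) ^ 3 + (19 / 20) ^ 3 / 6 * log (v / (19 / 20))))
    (f' := fun v => -(11 / 25) * (19 / 40 * v - v ^ 2 / 3))
    (g' := fun v => -(11 / 25) * ((19 / 20) ^ 3 / 6) / v) (19 / 20) ?_ ?_ ?_ ?_ v
  · intro v _
    have h1 : HasDerivAt (fun v : ℝ => 19 / 80 * v ^ 2 - v ^ 3 / 9)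
        (19 / 40 * v - v ^ 2 / 3) v := by
      have h2 := (((hasDerivAt_id v).fun_pow 2).const_mul (19 / 80)).sub
        (((hasDerivAt_id v).fun_pow 3).div_const 9)
      refine h2.congr_deriv ?_
      simp; ring
    exact h1.const_mul (-(11 / 25) : ℝ)
  · intro v hv
    have hv0 : v ≠ 0 := by linarith
    have h1 : HasDerivAt (fun v : ℝ => log (v / (19 / 20))) (1 / v) v := by
      have h2 : HasDerivAt (fun v : ℝ => v / (19 / 20)) (1 / (19 / 20)) v :=
        (hasDerivAt_id v).div_const (19 / 20)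
      have h3 := h2.log (by positivity)
      refine h3.congr_deriv ?_
      field_simp
    have h4 := ((h1.const_mul ((19 / 20) ^ 3 / 6 : ℝ)).const_add
      (5 / 36 * (19 / 20) ^ 3)).const_mul (-(11 / 25) : ℝ)
    refine h4.congr_deriv ?_
    field_simp
  · norm_num
  · norm_num

lemma kap3_continuous : Continuous kap3 :=
  continuous_iff_continuousAt.mpr fun v => (hasDerivAt_kap3 v).continuousAt

lemma KK3_continuous : Continuous KK3 :=
  continuous_iff_continuousAt.mpr fun v => (hasDerivAt_KK3 v).continuousAt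

lemma kap3'_eq (v : ℝ) : kap3' v = -(11 / 25) * (19 / 40 - 2 / 3 * min v (19 / 20)) *
    ((19 / 20) ^ 2 / (max (19 / 20) v) ^ 2) := by
  unfold kap3'
  split_ifs with h
  · rw [max_eq_left h, min_eq_left h]; norm_num
  · rw [max_eq_right (not_le.mp h).le, min_eq_right (not_le.mp h).le]; ring

lemma kap3'_continuous : Continuous kap3' := by
  have : kap3' = fun v => -(11 / 25) * (19 / 40 - 2 / 3 * min v (19 / 20)) *
    ((19 / 20) ^ 2 / (max (19 / 20) v) ^ 2) := by
    funext v; exact kap3'_eq v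
  rw [this]
  apply Continuous.mul (by fun_prop)
  apply Continuous.div continuous_const (by fun_prop)
  intro v
  have : 0 < max (19 / 20 : ℝ) v := lt_max_of_lt_left (by norm_num)
  positivity

lemma HH3_eq (v : ℝ) : HH3 v = v * kap3 v := by
  unfold HH3 kap3
  split_ifs with h
  · ring
  · have : v ≠ 0 := by linarith [not_le.mp h]
    field_simp

lemma hh3_eq (v : ℝ) : hh3 v = kap3 v + v * kap3' v := by
  unfold hh3 kap3 kap3'
  split_ifs with h
  · rw [max_eq_right (by linarith)]; ring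
  · have : v ≠ 0 := by linarith [not_le.mp h]
    rw [max_eq_left (by linarith [not_le.mp h])]
    field_simp
    ring

lemma hk3 : (0 : ℝ) < 1 / 3 := by norm_num

/-- `∂_y (κ(v) Re Z - K(v))` -/
noncomputable def dG (F F1 F2 : ℂ → ℂ) (x y : ℝ) : ℝ :=
  kap3' (vv (1 / 3) F x y) * (zr (1 / 3) F F1 x y / y) * zr (1 / 3) F F1 x y +
    kap3 (vv (1 / 3) F x y) * (pw (1 / 3) y * (2 * y * ((F1 (pt x y)).re ^ 2 + (F (pt x y)).re *
        (F2 (pt x y)).re + (F1 (pt x y)).im ^ 2 + (F (pt x y)).im * (F2 (pt x y)).im) +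
      (2 + 4 * (1 / 3)) * ((F (pt x y)).re * (F1 (pt x y)).re + (F (pt x y)).im * (F1 (pt x y)).im)) +
      (1 / 3) ^ 2 * (pw (1 / 3) y * ((F (pt x y)).re ^ 2 + (F (pt x y)).im ^ 2)) / y) -
    kap3 (vv (1 / 3) F x y) * (zr (1 / 3) F F1 x y / y)

/-- `∂_x (κ(v) Im Z)` -/
noncomputable def dJ (F F1 F2 : ℂ → ℂ) (x y : ℝ) : ℝ :=
  kap3' (vv (1 / 3) F x y) * (-(zi (1 / 3) F F1 x y) / y) * zi (1 / 3) F F1 x y +
    kap3 (vv (1 / 3) F x y) * (pw (1 / 3) y * (2 * y * (-(F1 (pt x y)).im ^ 2 + (F (pt x y)).re *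
        (F2 (pt x y)).re - (F1 (pt x y)).re ^ 2 + (F (pt x y)).im * (F2 (pt x y)).im)))

lemma flux_alg (F F1 F2 : ℂ → ℂ) (x y : ℝ) (hy : 0 < y) :
    y * (dG F F1 F2 x y - dJ F F1 F2 x y) = flux3 F F1 x y := by
  unfold flux3
  rw [hh3_eq, HH3_eq]
  have h := zr_sq_add_zi_sq (1 / 3) F F1 x y
  have hy' : y ≠ 0 := hy.ne'
  have e1 : y * (dG F F1 F2 x y - dJ F F1 F2 x y) =
      kap3' (vv (1 / 3) F x y) * (zr (1 / 3) F F1 x y ^ 2 + zi (1 / 3) F F1 x y ^ 2) +
      kap3 (vv (1 / 3) F x y) * (pw (1 / 3) y * (4 * y ^ 2 * ((F1 (pt x y)).re ^ 2 + (F1 (pt x y)).im ^ 2) +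
      (2 + 4 * (1 / 3)) * y * ((F (pt x y)).re * (F1 (pt x y)).re +
        (F (pt x y)).im * (F1 (pt x y)).im)) +
      (1 / 3) ^ 2 * (pw (1 / 3) y * ((F (pt x y)).re ^ 2 + (F (pt x y)).im ^ 2)) - zr (1 / 3) F F1 x y) := by
    unfold dG dJ
    field_simp
    ring
  rw [e1, h]
  unfold zr vv qq
  ring

variable {F F1 F2 : ℂ → ℂ}

lemma hasDerivAt_G {x y : ℝ} (hy : 0 < y) (h1 : HasDerivAt F (F1 (pt x y)) (pt x y))
    (h2 : HasDerivAt F1 (F2 (pt x y)) (pt x y)) :
    HasDerivAt (fun y => kap3 (vv (1 / 3) F x y) * zr (1 / 3) F F1 x y - KK3 (vv (1 / 3) F x y))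
      (dG F F1 F2 x y) y := by
  have hv := hasDerivAt_vv_y (k := 1 / 3) hy h1
  have hz := hasDerivAt_zr_y (k := 1 / 3) hy h1 h2
  have hk := (hasDerivAt_kap3 (vv (1 / 3) F x y)).comp y hv
  have hK := (hasDerivAt_KK3 (vv (1 / 3) F x y)).comp y hv
  exact ((hk.mul hz).sub hK).congr_deriv (by unfold dG; simp only [Function.comp])

lemma hasDerivAt_J {x y : ℝ} (hy : 0 < y) (h1 : HasDerivAt F (F1 (pt x y)) (pt x y))
    (h2 : HasDerivAt F1 (F2 (pt x y)) (pt x y)) :
    HasDerivAt (fun x => kap3 (vv (1 / 3) F x y) * zi (1 / 3) F F1 x y) (dJ F F1 F2 x y) x := by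
  have hv := hasDerivAt_vv_x (k := 1 / 3) hy h1
  have hz := hasDerivAt_zi_x (k := 1 / 3) h1 h2
  have hk := (hasDerivAt_kap3 (vv (1 / 3) F x y)).comp x hv
  exact (hk.mul hz).congr_deriv (by unfold dJ; simp only [Function.comp])

section cont

variable {X : Type*} [TopologicalSpace X] {x y : X → ℝ}

lemma cont_dG (h : Per F F1 F2) (hx : Continuous x) (hy : Continuous y)
    (hpos : ∀ t, 0 < y t) : Continuous (fun t => dG F F1 F2 (x t) (y t)) := by
  have hv := cont_vv hk3 h.c0 hx hy hpos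
  have hz := cont_zr hk3 h hx hy hpos
  have hk0 := kap3_continuous.comp hv
  have hk' := kap3'_continuous.comp hv
  have hp := cont_pw hk3 hy
  have hne : ∀ t, y t ≠ 0 := fun t => (hpos t).ne'
  have hzy : Continuous (fun t => zr (1 / 3) F F1 (x t) (y t) / y t) := hz.div hy hne
  have aux : ∀ (A B C : X → ℂ) (p κ κ' z zy : X → ℝ), Continuous A → Continuous B →
      Continuous C → Continuous p → Continuous κ → Continuous κ' → Continuous z → Continuous zy →
      Continuous (fun t => κ' t * zy t * z t + κ t * (p t * (2 * y t * ((B t).re ^ 2 +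
        (A t).re * (C t).re + (B t).im ^ 2 + (A t).im * (C t).im) +
      (2 + 4 * (1 / 3)) * ((A t).re * (B t).re + (A t).im * (B t).im)) +
      (1 / 3) ^ 2 * (p t * ((A t).re ^ 2 + (A t).im ^ 2)) / y t) - κ t * zy t) := by
    intro A B C p κ κ' z zy hA hB hC h0 h1 h2 h3 h4
    have h5 : Continuous (fun t => (1 / 3) ^ 2 * (p t * ((A t).re ^ 2 + (A t).im ^ 2)) / y t) :=
      Continuous.div (by fun_prop) (by fun_prop) hne
    fun_prop
  exact aux _ _ _ _ _ _ _ _ (cont_comp h.c0 hx hy hpos) (cont_comp h.c1 hx hy hpos)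
    (cont_comp h.c2 hx hy hpos) hp hk0 hk' hz hzy

lemma cont_dJ (h : Per F F1 F2) (hx : Continuous x) (hy : Continuous y)
    (hpos : ∀ t, 0 < y t) : Continuous (fun t => dJ F F1 F2 (x t) (y t)) := by
  have hv := cont_vv hk3 h.c0 hx hy hpos
  have hz := cont_zi hk3 h hx hy hpos
  have hk0 := kap3_continuous.comp hv
  have hk' := kap3'_continuous.comp hv
  have hp := cont_pw hk3 hy
  have hne : ∀ t, y t ≠ 0 := fun t => (hpos t).ne'
  have hzy : Continuous (fun t => -(zi (1 / 3) F F1 (x t) (y t)) / y t) := hz.neg.div hy hne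
  have aux : ∀ (A B C : X → ℂ) (p κ κ' z zy : X → ℝ), Continuous A → Continuous B →
      Continuous C → Continuous p → Continuous κ → Continuous κ' → Continuous z → Continuous zy →
      Continuous (fun t => κ' t * zy t * z t + κ t * (p t * (2 * y t * (-(B t).im ^ 2 +
        (A t).re * (C t).re - (B t).re ^ 2 + (A t).im * (C t).im)))) := by
    intro A B C p κ κ' z zy hA hB hC h0 h1 h2 h3 h4
    fun_prop
  exact aux _ _ _ _ _ _ _ _ (cont_comp h.c0 hx hy hpos) (cont_comp h.c1 hx hy hpos)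
    (cont_comp h.c2 hx hy hpos) hp hk0 hk' hz hzy

lemma cont_GG (h : Per F F1 F2) (hx : Continuous x) (hy : Continuous y)
    (hpos : ∀ t, 0 < y t) : Continuous (fun t => GG3 F F1 (x t) (y t)) := by
  have hv := cont_vv hk3 h.c0 hx hy hpos
  have hz := cont_zr hk3 h hx hy hpos
  exact ((kap3_continuous.comp hv).mul hz).sub (KK3_continuous.comp hv)

end cont

theorem main : S_FLUX3 := by
  intro F F1 F2 h a b
  have hcont1 : Continuous (fun z : ℝ × ℝ => exp (-z.1) * dG F F1 F2 z.2 (exp (-z.1))) := by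
    apply Continuous.mul (by fun_prop)
    exact cont_dG h continuous_snd (by fun_prop) (fun _ => exp_pos _)
  have hcont2 : ∀ τ : ℝ, Continuous (fun x : ℝ => dJ F F1 F2 x (exp (-τ))) := fun τ =>
    cont_dJ h continuous_id continuous_const (fun _ => exp_pos _)
  have hcont3 : ∀ τ : ℝ, Continuous (fun x : ℝ => dG F F1 F2 x (exp (-τ))) := fun τ =>
    cont_dG h continuous_id continuous_const (fun _ => exp_pos _)
  have hcont2' : ∀ τ : ℝ, Continuous (fun x : ℝ => exp (-τ) * dJ F F1 F2 x (exp (-τ))) :=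
    fun τ => continuous_const.mul (hcont2 τ)
  have hcont3' : ∀ τ : ℝ, Continuous (fun x : ℝ => exp (-τ) * dG F F1 F2 x (exp (-τ))) :=
    fun τ => continuous_const.mul (hcont3 τ)
  have hcontG : ∀ y : ℝ, 0 < y → Continuous (fun x : ℝ => GG3 F F1 x y) := fun y hy =>
    cont_GG h continuous_id continuous_const (fun _ => hy)
  have step1 : ∀ τ : ℝ, ∫ x in (0 : ℝ)..2 * π, flux3 F F1 x (exp (-τ)) =
      ∫ x in (0 : ℝ)..2 * π, exp (-τ) * dG F F1 F2 x (exp (-τ)) := by
    intro τ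
    have e1 : ∀ x, flux3 F F1 x (exp (-τ)) =
        exp (-τ) * dG F F1 F2 x (exp (-τ)) - exp (-τ) * dJ F F1 F2 x (exp (-τ)) := by
      intro x
      rw [← flux_alg F F1 F2 x _ (exp_pos _)]; ring
    simp_rw [e1]
    rw [intervalIntegral.integral_sub ((hcont3' τ).intervalIntegrable _ _)
      ((hcont2' τ).intervalIntegrable _ _),
      intervalIntegral.integral_const_mul (exp (-τ)) (fun x => dJ F F1 F2 x (exp (-τ)))]
    have e2 : ∫ x in (0 : ℝ)..2 * π, dJ F F1 F2 x (exp (-τ)) = 0 := by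
      rw [intervalIntegral.integral_eq_sub_of_hasDerivAt
        (f := fun x => kap3 (vv (1 / 3) F x (exp (-τ))) * zi (1 / 3) F F1 x (exp (-τ)))
        (fun x _ => hasDerivAt_J (exp_pos _) (h.d1 _ (by rw [pt_re]; exact exp_pos _))
          (h.d2 _ (by rw [pt_re]; exact exp_pos _)))
        ((hcont2 τ).intervalIntegrable _ _)]
      have h0 := h.per0 0 (exp (-τ))
      have h1 := h.per1 0 (exp (-τ))
      rw [zero_add] at h0 h1
      unfold vv zi
      rw [h0, h1, sub_self]
    rw [e2]; ring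
  simp_rw [step1]
  rw [intervalIntegral_intervalIntegral_swap]
  · rw [← intervalIntegral.integral_sub ((hcontG _ (exp_pos _)).intervalIntegrable _ _)
      ((hcontG _ (exp_pos _)).intervalIntegrable _ _)]
    apply intervalIntegral.integral_congr
    intro x _
    simp only
    rw [intervalIntegral.integral_eq_sub_of_hasDerivAt
      (f := fun τ => -(GG3 F F1 x (exp (-τ))))]
    · simp; ring
    · intro τ _
      have h1 : HasDerivAt (fun y => GG3 F F1 x y) (dG F F1 F2 x (exp (-τ))) (exp (-τ)) :=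
        hasDerivAt_G (x := x) (exp_pos (-τ)) (h.d1 _ (by rw [pt_re]; exact exp_pos _))
          (h.d2 _ (by rw [pt_re]; exact exp_pos _))
      have h2 : HasDerivAt (fun τ : ℝ => exp (-τ)) (-exp (-τ)) τ := by
        simpa using ((hasDerivAt_id τ).neg).exp
      have h3 := (HasDerivAt.comp τ (h₂ := fun y => GG3 F F1 x y) h1 h2).neg
      refine h3.congr_deriv ?_
      ring
    · exact (Continuous.mul (by fun_prop)
        (cont_dG h continuous_const (by fun_prop) (fun _ => exp_pos _))).intervalIntegrable _ _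
  · have : IntegrableOn (Function.uncurry fun τ x => exp (-τ) * dG F F1 F2 x (exp (-τ)))
        (uIcc a b ×ˢ uIcc 0 (2 * π)) := by
      apply ContinuousOn.integrableOn_compact (isCompact_uIcc.prod isCompact_uIcc)
      exact hcont1.continuousOn
    exact this.mono_set (prod_mono uIoc_subset_uIcc uIoc_subset_uIcc)

end Pool.Agent.Helper79.EH.FLUX3
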